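import Pool.Agent.N127.PB.Pairs

set_option autoImplicit false

/-! # The motivic monodromy conjecture for `∑ y_j f_j(x₀, x₁, x₂)` at the origin

Here the `f_j` are forms of the same degree `d` in the three variables `x₀, x₁, x₂`, and the `y_j`
are further variables: `F = univ f = ∑ y_j f_j(x₀, x₁, x₂)`. The pole `s₀ = -3/d` comes from the
blow-up of `x₀ = x₁ = x₂ = 0`. If the Jacobian determinants of all triples of the `f_j` vanish then
the `f_j` are composed with a pencil of plane curves. This file proves that `-3/d` is a root of the
Bernstein-Sato polynomial of `F` for large classes of such `f_j`, see `RootCond`.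

`RootCond` (in `Pool.Agent.N127.PB.CondDefs`) contains the linear systems `L` which contain
`h G(P, Q)` and `h G'(P, Q)` for a pencil `P, Q` of curves of degree `e ≥ 3` with transversal base
points and an arbitrary form `h` (with a restriction for `e = 2`), the systems which contain `h P`
and `h Q`, where `P` and `Q` do not depend on `x₀` and the general line through `(1 : 0 : 0)` meets
`h = 0` in at least three other points (with a restriction in two other points), and the systems
which contain `h (P, Q) ^ k` under weak conditions.

The proof of `b(-3/d) = 0` (`root_of_EN`): let `α = -3/d` and suppose that `b(α) ≠ 0`. The functional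
equation gives polynomials `V_l` in `x` and `y` with
`b(α) F ^ α = ∑_l ∂_{x_l} (V_l F ^ (α - N))` for `F = ∑ y_j f_j` (`stmA`, `stmAI`). For two elements
`h P`, `h Q` of the linear system, a residue at the zero of `P + y Q` (as a polynomial in `y`) gives
a rational function `g` with `{g} + α g {h} / h = const ≠ 0`, where
`{a} = det (∇P, ∇Q, ∇a)` (`pair`). For pencils with transversal base points, the orders of the
numerator of `g` at the base points contradict its degree (`RPlus.no_sol_plus`); for pencils of
lines, `g` is a polynomial in `x₀` whose degree gives a contradiction (`stmLines`). -/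

namespace Pool.Agent.Results.MP_b91a16_ag.ConePencils

open MvPolynomial Pool.Agent.W574.MO Pool.Agent.W574.SM Pool.Agent.W574.HS Pool.Agent.H628R4.TP
open Pool.Agent.N127.PB

/-- `Z` is (of the form of) the series `∑_{m ≥ 1} [X_{m,1,x}] L^(-m N) T^m` of the polynomial
`F = ∑ y_j f_j(x₀, x₁, x₂)` in `N = 3 + |ι|` variables at the origin `x`, where `X_{m,1,x}` is the
set of the `m`-jets `φ` with `φ(0) = x` and `F(φ) = t^m` modulo `t^(m + 1)`, and the `f_j` are forms
of degree `d`: `Z = Z' L⁻¹ T / (1 - L⁻¹ T)`, where `L⁻³ Z'` is the local motivic zeta function of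
the ideal `I = (f_j)` at the origin, see `ConeMot`. -/
def ConeJetFormMot {M : Type} [CommRing M] {ι : Type} (L : Mˣ) (f : ι → MvPolynomial (Fin 3) ℂ)
    (d : ℕ) (Z : PowerSeries M) : Prop :=
  ∃ Z' : PowerSeries M, ConeMot L f d (PowerSeries.C ((L⁻¹ ^ 3 : Mˣ) : M) * Z') ∧
    Z = PowerSeries.C ((L⁻¹ : Mˣ) : M) * Z' * (PowerSeries.X * geo L 1 1)

/-- Let `f_j` be forms of the same degree `d > 0` in three variables, not all zero, let `b` be a
polynomial which satisfies a functional equation `b(s) F ^ s = P(s) F ^ (s + 1)` (in particular the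
Bernstein-Sato polynomial of `F = ∑ y_j f_j`), and let `Z ∈ M⟦T⟧` be the local motivic zeta
function of `F` at the origin. Then `Z` lies in the ring `M[T][(1 - L⁻ⁿ Tᵃ)⁻¹]`, where the pairs
`a, n ≥ 1` are such that `-n/a` is a root of `b` or, only in the case where the Jacobian
determinants of all triples of the `f_j` vanish and the linear system which is spanned by the `f_j`
satisfies none of the conditions `RootCond`, `-n/a = -3/d`; see `PencilPair`. -/
theorem result {M : Type} [CommRing M] (L : Mˣ) {ι : Type} [Fintype ι]
    (f : ι → MvPolynomial (Fin 3) ℂ) (d : ℕ) (hd : 0 < d) (hf : ∀ j, (f j).IsHomogeneous d)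
    (hf0 : ∃ j, f j ≠ 0) (b : Polynomial ℂ) (hb : IsBFunction (univ f) b)
    (Z : PowerSeries M) (hZ : ConeJetFormMot L f d Z) :
    Z ∈ DenRing L (PencilPair f d b) := by
  classical
  refine den_pencil L f d hd b (fun hc => root_form f d hd hf b hb hc) Z ?_
  obtain ⟨Z', hZ', rfl⟩ := hZ
  have h1 := cone_mot L f d hd hf b (functionalEq_of_univ f b hb) _ hZ'
  have h2 : Z' ∈ DenRing L (ConePair f d b) := by
    have h3 : Z' = PowerSeries.C ((L ^ 3 : Mˣ) : M) *
        (PowerSeries.C ((L⁻¹ ^ 3 : Mˣ) : M) * Z') := by
      rw [← mul_assoc, ← map_mul, ← Units.val_mul, ← mul_pow, mul_inv_cancel, one_pow,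
        Units.val_one, map_one, one_mul]
    rw [h3]
    exact Subring.mul_mem _ (C_mem _) h1
  exact Subring.mul_mem _ (Subring.mul_mem _ (C_mem _) h2)
    (Subring.mul_mem _ X_mem (geo_mem le_rfl le_rfl (pair_11 f d hf0 b hb)))

end Pool.Agent.Results.MP_b91a16_ag.ConePencils
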