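import Pool.Agent.N101.CB.EMain

set_option autoImplicit false

/-! # The motivic monodromy conjecture at all points: cubic polynomials suffice

Let `k` be a subfield of `ℂ` (a field with an embedding in `ℂ`) and `K ⊃ k`. We consider polynomials `f` over
`k`, in any number of variables, and their local motivic zeta functions `Z_{f, x}(T)` at the points `x`
with coordinates in `K` and `f(x) = 0`, with leading coefficient one: `f(ψ) = t ^ m mod t ^ (m + 1)`.

`Refined f`: at every point `x`, `(1 - 𝕃⁻¹ T) Z_{f, x}(T)` has only denominators `1 - 𝕃 ^ a T ^ b` such that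
`a / b` is a root of all `c(s)` for which `(s + 1) c(s)` satisfies a functional equation of `f`, in particular
of `b_f(s) / (s + 1)`. This refinement of Q1 treats the root `-1` (of every `b_f`) separately; it implies Q1.

The theorem: `Refined` holds for all non-constant polynomials over `k` if and only if it holds for the cubic
polynomials of the form `q_0(x) + ∑_k t_k q_k(x)`, where the `q_0, q_k` have degree at most two and all
monomials are squarefree (`Cub`). So Q1 for all polynomials over `k` and all points with coordinates in `K`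
follows from `Refined` for these cubic polynomials.

Proof. By steps `f ↦ f + (t + c x ^ b) (w - x ^ a)`, images of `f + t w` by automorphisms, `c x ^ (a + b)` a
monomial of `f`, all monomials become squarefree, of degree at most one in the `t` and at most two in the
other variables. The classes of the jets of `f + t w` are computed in terms of those of `f` and of the
jets with `ord f ≥ i`. With a second pair of variables these can be eliminated, in `𝓜[[T]]`, without
division by `𝕃 - 1`:
`𝕃 ^ 3 (1 - 𝕃⁻¹ T) Z_f(T) = (𝕃 ^ 2 + 𝕃) U_1(𝕃 T) - U_2(𝕃 ^ 2 T) +` (a polynomial),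
`U_1 = (1 - 𝕃⁻¹ T) Z_{f + t w}(T)`, `U_2 = (1 - 𝕃⁻¹ T) Z_{f + t w + y z}(T)`, for the local zeta functions at
`(x, 0, 0)` and `(x, 0, 0, 0, 0)`. A functional equation of `f` with `(s + 1) c(s)` gives one of `f + t w` with
`(s + 1) c(s + 1)`. -/

namespace Pool.Agent.Results.MP_b91a16_ag.CubicPolynomials

open MvPolynomial Pool.Agent.W428.MOT Pool.Agent.N101.CB
open Pool.Agent.H628R4.TP (IsBFunction)

variable {k : Type} [Field k] [Algebra k ℂ]

/-- Q1 for the polynomial `f` over `k` and all points with coordinates in `K`: for every `x` with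
`f(x) = 0` there is a finite set `S` of pairs `(a, b)`, `b > 0`, such that `Z_{f, x}(T)` lies in
`𝓜_K[T, 1 / (1 - 𝕃 ^ a T ^ b)]_{(a, b) ∈ S}` and `a / b` is a root of every `b(s)` which satisfies a functional
equation `b(s) f ^ s = P(s) f ^ (s + 1)`, in particular of the Bernstein-Sato polynomial (so `a < 0`, by a
theorem of Kashiwara). -/
def Q1 (K : Type) [Field K] [Algebra k K] {n : ℕ} (f : MvPolynomial (Fin n) k) : Prop :=
  ∀ x : Fin n → K, aeval x (map (algebraMap k K) f) = 0 →
    ∃ S : Finset (ℤ × ℤ), (∀ p ∈ S, 0 < p.2 ∧ ∀ b : Polynomial ℂ,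
        IsBFunction (map (algebraMap k ℂ) f) b → b.eval ((((p.1 : ℚ) / p.2 : ℚ)) : ℂ) = 0) ∧
      zeta (map (algebraMap k K) f) x ∈ ratRing K S

/-- The refinement: `(1 - 𝕃⁻¹ T) Z_{f, x}(T)` lies in `𝓜_K[T, 1 / (1 - 𝕃 ^ a T ^ b)]_{(a, b) ∈ S}`, where
`a / b` is a root of every `c(s)` such that `(s + 1) c(s)` satisfies a functional equation. -/
def Refined (K : Type) [Field K] [Algebra k K] {n : ℕ} (f : MvPolynomial (Fin n) k) : Prop :=
  ∀ x : Fin n → K, aeval x (map (algebraMap k K) f) = 0 →
    ∃ S : Finset (ℤ × ℤ), (∀ p ∈ S, 0 < p.2 ∧ ∀ c : Polynomial ℂ,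
        IsBFunction (map (algebraMap k ℂ) f) ((Polynomial.X + 1) * c) →
          c.eval ((((p.1 : ℚ) / p.2 : ℚ)) : ℂ) = 0) ∧
      (1 - PowerSeries.C (((Lu K)⁻¹ : (MK K)ˣ) : MK K) * PowerSeries.X) *
        zeta (map (algebraMap k K) f) x ∈ ratRing K S

theorem q1_of_refined (K : Type) [Field K] [Algebra k K] {n : ℕ} (f : MvPolynomial (Fin n) k)
    (hf : f.totalDegree ≠ 0) (h : Refined K f) : Q1 K f := by
  classical
  have hK : CharZero K := by
    have hkc : CharZero k := RingHom.charZero (algebraMap k ℂ)
    exact charZero_of_injective_algebraMap (algebraMap k K).injective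
  intro x hx
  obtain ⟨S, hS, hz⟩ := h x hx
  have hfC := EM.map_deg (algebraMap k ℂ) f hf
  refine ⟨insert (-1, 1) S, fun p hp => ?_, ?_⟩
  · rcases Finset.mem_insert.1 hp with rfl | hp
    · refine ⟨one_pos, fun b hb => ?_⟩
      have h4 : ((((-1 : ℤ) : ℚ) / ((1 : ℤ) : ℚ) : ℚ) : ℂ) = -1 := by
        push_cast
        ring
      simp only [h4]
      exact (bg _ 0 0 hfC b hb).1
    · refine ⟨(hS p hp).1, fun b hb => ?_⟩
      obtain ⟨c, hc⟩ := EM.fac (bg _ 0 0 hfC b hb).1
      subst hc
      rw [Polynomial.eval_mul, (hS p hp).2 c hb, mul_zero]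
  · rw [EM.zeta_eq _ _ hx] at hz ⊢
    rw [Finset.coe_insert]
    exact Pool.Agent.Y229.MS.zeta_of_fst _ _ _ _ hz

/-- **Cubic polynomials suffice for the refined motivic monodromy conjecture.** Let `k` be a field with an
embedding in `ℂ`, `K ⊃ k`. The refined form implies Q1; the refined form holds for all non-constant
polynomials over `k` if and only if it holds for the cubic ones with `Cub f`; and then Q1 holds for all
non-constant polynomials over `k` and all points with coordinates in `K`. -/
theorem result (k : Type) [Field k] [Algebra k ℂ] (K : Type) [Field K] [Algebra k K] :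
    (∀ (n : ℕ) (f : MvPolynomial (Fin n) k), f.totalDegree ≠ 0 → Refined K f → Q1 K f) ∧
    ((∀ (n : ℕ) (f : MvPolynomial (Fin n) k), f.totalDegree ≠ 0 → Refined K f) ↔
      ∀ (n : ℕ) (f : MvPolynomial (Fin n) k), Cub f → f.totalDegree ≠ 0 → Refined K f) ∧
    ((∀ (n : ℕ) (f : MvPolynomial (Fin n) k), Cub f → f.totalDegree ≠ 0 → Refined K f) →
      ∀ (n : ℕ) (f : MvPolynomial (Fin n) k), f.totalDegree ≠ 0 → Q1 K f) :=
  ⟨fun _ f hf h => q1_of_refined K f hf h,
    ⟨fun h n f _ hf => h n f hf, fun h n f hf => EM.refMC_red h n f hf⟩,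
    fun h n f hf => q1_of_refined K f hf (EM.refMC_red h n f hf)⟩

end Pool.Agent.Results.MP_b91a16_ag.CubicPolynomials
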